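import Mathlib
import Pool.Agent.TH407.MZ.Defs
import Pool.Agent.TH857.MV.MainL4
set_option autoImplicit false

/-!
# The planar `L⁴` bound on a dyadic shell (helper986), adapted from `Pool.Agent.TH857.MV.MainL4` (helper857)
-/

namespace Pool.Agent.TH986.MZ5

open Pool.Agent.TH407 Pool.Agent.TH407.MV Pool.Agent.TH407.MZ Pool.Agent.TH857.MV7
open MeasureTheory Set Complex
open scoped ENNReal NNReal Real ComplexConjugate

section arc

variable {δ c h : ℝ} (hδ : 0 < δ) (hδ1 : δ ≤ 1) (hh : 0 < h) {r : ℝ} (hr : 2 * h ≤ δ * r)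
  (hr1 : r ≤ 1 / 4)

include hδ hδ1 hr hr1 in
lemma arc_TTz (A : ℝ → ℂ) (ε t : ℝ) (g : ℝ → ℂ) (y : ℝ × ℝ) :
    ∫ θ in arc c h, cexp (I * ((t * phz ε (dt y θ) : ℝ) : ℂ)) * (A (dt y θ) * g θ) =
      TTz A δ ε t (Gi δ c h g) (cr δ c y) := by
  have h1 := integral_image_eq_integral_abs_deriv_smul (s := Th δ c ⁻¹' arc c h)
    ((Th_cont δ c).measurable (arc_meas c h)) (fun x _ => (Th_deriv δ c x).hasDerivWithinAt)
    (Th_inj δ c hδ).injOn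
    (fun θ => cexp (I * ((t * phz ε (dt y θ) : ℝ) : ℂ)) * (A (dt y θ) * g θ))
  rw [arc_im hδ hδ1 hr hr1] at h1
  rw [h1, ← integral_indicator ((Th_cont δ c).measurable (arc_meas c h))]
  unfold TTz
  congr 1
  funext x
  unfold Gi
  by_cases hx : x ∈ Th δ c ⁻¹' arc c h
  · rw [indicator_of_mem hx, indicator_of_mem hx, dt_Th δ c x hδ.ne',
      abs_of_nonneg (by positivity : (0 : ℝ) ≤ δ / (1 + (δ * x) ^ 2)), Complex.real_smul]
    ring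
  · rw [indicator_of_notMem hx, indicator_of_notMem hx, mul_zero, mul_zero]

end arc

/-- the bound for one arc -/
lemma arc_bdz {Y Y1 δ c h r : ℝ} (hY1 : 0 < Y1) (hδ : 0 < δ) (hδ1 : δ ≤ 1)
    (hr : 2 * h ≤ δ * r) (hr1 : r ≤ 1 / 4) {A : ℝ → ℂ} (hA : ∀ y, y ∉ Icc Y1 Y → A y = 0)
    (ε t : ℝ) {K : ℝ≥0∞}
    (H : ∀ (G : ℝ → ℂ) (B : ℝ≥0), Measurable G → (∀ x, r < |x| → G x = 0) →
      (∀ x, ‖G x‖ₑ ≤ B) → ∫⁻ y in Sset Y Y1 δ, ‖TTz A δ ε t G y‖ₑ ^ 4 ≤ K * B ^ 2 * ∫⁻ x, ‖G x‖ₑ ^ 2)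
    {g : ℝ → ℂ} {B : ℝ≥0} (hg : Measurable g) (hB : ∀ θ, ‖g θ‖ₑ ≤ B) :
    ∫⁻ y in Zs Y1 δ, ‖∫ θ in arc c h, cexp (I * ((t * phz ε (dt y θ) : ℝ) : ℂ)) *
      (A (dt y θ) * g θ)‖ₑ ^ 4 ≤
      ENNReal.ofReal (δ ^ 2) * (K * B ^ 2 * ∫⁻ θ in arc c h, ‖g θ‖ₑ ^ 2) := by
  have h1 := H (Gi δ c h g) (δ.toNNReal * B) (Gi_meas δ c h hg) (Gi_supp hδ hδ1 hr hr1 g)
    (Gi_bd hδ hB)
  calc ∫⁻ y in Zs Y1 δ, ‖∫ θ in arc c h, cexp (I * ((t * phz ε (dt y θ) : ℝ) : ℂ)) *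
      (A (dt y θ) * g θ)‖ₑ ^ 4
      ≤ ∫⁻ y, (Sset Y Y1 δ).indicator (fun z => ‖TTz A δ ε t (Gi δ c h g) z‖ₑ ^ 4)
          (cr δ c y) := by
        rw [← lintegral_indicator (Zs_meas Y1 δ)]
        refine lintegral_mono fun y => ?_
        by_cases hy : y ∈ Zs Y1 δ
        · rw [indicator_of_mem hy, arc_TTz hδ hδ1 hr hr1]
          by_cases hF : TTz A δ ε t (Gi δ c h g) (cr δ c y) = 0
          · rw [hF]
            simp
          · have h2 : cr δ c y ∈ Sset Y Y1 δ := by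
              rw [← arc_TTz hδ hδ1 hr hr1] at hF
              by_contra hcon
              apply hF
              rw [← arc_im hδ hδ1 hr hr1 (c := c) (h := h)]
              apply setIntegral_eq_zero_of_forall_eq_zero
              rintro θ ⟨x, hx, rfl⟩
              have h3 : A (dt y (Th δ c x)) = 0 := by
                apply hA
                intro h4
                exact hcon (mem_Sset hY1 hδ hδ1 hr1 hy (arc_x hδ hδ1 hr hr1 hx) h4)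
              rw [h3, zero_mul, mul_zero]
            rw [indicator_of_mem h2]
        · rw [indicator_of_notMem hy]
          exact zero_le
    _ = ENNReal.ofReal δ⁻¹ * ∫⁻ z in Sset Y Y1 δ, ‖TTz A δ ε t (Gi δ c h g) z‖ₑ ^ 4 := by
        rw [cr_lintegral δ c hδ, lintegral_indicator (Sset_meas Y Y1 δ)]
    _ ≤ ENNReal.ofReal δ⁻¹ * (K * ((δ.toNNReal * B : ℝ≥0) : ℝ≥0∞) ^ 2 *
          (ENNReal.ofReal δ * ∫⁻ θ in arc c h, ‖g θ‖ₑ ^ 2)) :=
        mul_le_mul' le_rfl (h1.trans (mul_le_mul' le_rfl (Gi_sq hδ hδ1 hr hr1 g)))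
    _ = ENNReal.ofReal (δ ^ 2) * (K * B ^ 2 * ∫⁻ θ in arc c h, ‖g θ‖ₑ ^ 2) := by
        have h5 : ENNReal.ofReal δ⁻¹ * ENNReal.ofReal δ = 1 := by
          rw [← ENNReal.ofReal_mul (by positivity), inv_mul_cancel₀ hδ.ne', ENNReal.ofReal_one]
        have h6 : ENNReal.ofReal (δ ^ 2) = ENNReal.ofReal δ ^ 2 := ENNReal.ofReal_pow hδ.le 2
        have h7 : ((δ.toNNReal * B : ℝ≥0) : ℝ≥0∞) = ENNReal.ofReal δ * B := by
          rw [ENNReal.coe_mul]; rfl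
        rw [h6, h7]
        calc ENNReal.ofReal δ⁻¹ * (K * (ENNReal.ofReal δ * ↑B) ^ 2 *
              (ENNReal.ofReal δ * ∫⁻ θ in arc c h, ‖g θ‖ₑ ^ 2))
            = (ENNReal.ofReal δ⁻¹ * ENNReal.ofReal δ) * (ENNReal.ofReal δ ^ 2 *
              (K * B ^ 2 * ∫⁻ θ in arc c h, ‖g θ‖ₑ ^ 2)) := by ring
          _ = _ := by rw [h5, one_mul]

lemma integrand_measz {A : ℝ → ℂ} (hA : Continuous A) (ε t : ℝ) {g : ℝ → ℂ} (hg : Measurable g) :
    Measurable fun p : (ℝ × ℝ) × ℝ => cexp (I * ((t * phz ε (dt p.1 p.2) : ℝ) : ℂ)) *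
      (A (dt p.1 p.2) * g p.2) := by
  have h1 : Continuous fun p : (ℝ × ℝ) × ℝ => dt p.1 p.2 := by
    unfold dt
    fun_prop
  have h2 : Continuous fun v : ℝ => phz ε v := by
    unfold phz
    fun_prop
  have h3 : Continuous fun p : (ℝ × ℝ) × ℝ => cexp (I * ((t * phz ε (dt p.1 p.2) : ℝ) : ℂ)) :=
    Complex.continuous_exp.comp (continuous_const.mul (Complex.continuous_ofReal.comp
      (continuous_const.mul (h2.comp h1))))
  exact h3.measurable.mul ((hA.comp h1).measurable.mul (hg.comp measurable_snd))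

/-- the bound on one shell -/
lemma shell_bdz {Y Y1 δ h0 r : ℝ} (hY1 : 0 < Y1) (hY : 0 ≤ Y) (hδ : 0 < δ) (hδ1 : δ ≤ 1)
    (hh0 : 0 < h0) (hr : 2 * h0 ≤ r) (hr1 : r ≤ 1 / 4) {n : ℕ} (hn : (n : ℝ) * (δ * h0) = π)
    {A : ℝ → ℂ} (hAc : Continuous A) (hAb : ∀ y, ‖A y‖ ≤ 1)
    (hA : ∀ y, y ∉ Icc Y1 Y → A y = 0) (ε t : ℝ) {K : ℝ≥0∞}
    (H : ∀ (G : ℝ → ℂ) (B : ℝ≥0), Measurable G → (∀ x, r < |x| → G x = 0) →
      (∀ x, ‖G x‖ₑ ≤ B) → ∫⁻ y in Sset Y Y1 δ, ‖TTz A δ ε t G y‖ₑ ^ 4 ≤ K * B ^ 2 * ∫⁻ x, ‖G x‖ₑ ^ 2)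
    {g : ℝ → ℂ} {B : ℝ≥0} (hg : Measurable g) (hB : ∀ θ, ‖g θ‖ₑ ≤ B) :
    ∫⁻ y in Zs Y1 δ, ‖∫ θ in Ioo (-π) π, cexp (I * ((t * phz ε (dt y θ) : ℝ) : ℂ)) *
      (A (dt y θ) * g θ)‖ₑ ^ 4 ≤
      ((5 * (⌊2 * (π * Y / Y1 / (2 * h0) + 1)⌋₊ + 1) : ℕ) : ℝ≥0∞) ^ 3 *
        (ENNReal.ofReal (δ ^ 2) * (K * B ^ 2 * ∫⁻ θ in Ioo (-π) π, ‖g θ‖ₑ ^ 2)) := by
  classical
  set N : ℕ := 5 * (⌊2 * (π * Y / Y1 / (2 * h0) + 1)⌋₊ + 1) with hN
  set h := δ * h0 with hh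
  have hhp : 0 < h := mul_pos hδ hh0
  have hrh : 2 * h ≤ δ * r := by rw [hh]; nlinarith
  set a : ℕ → ℝ := fun i => -π + 2 * i * h with ha
  set c : ℕ → ℝ := fun i => -π + 2 * i * h + h with hc
  have harc : ∀ i, arc (c i) h = Ioc (a i) (a (i + 1)) := by
    intro i
    unfold arc
    simp only [hc, ha]
    congr 1
    · ring
    · push_cast; ring
  have hmono : Monotone a := by
    intro i k hik
    simp only [ha]
    have : (i : ℝ) ≤ k := by exact_mod_cast hik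
    nlinarith
  have ha0 : a 0 = -π := by simp [ha]
  have han : a n = π := by simp only [ha]; linarith
  obtain ⟨f, hf⟩ : ∃ f : ℝ × ℝ → ℝ → ℂ, ∀ y θ, cexp (I * ((t * phz ε (dt y θ) : ℝ) : ℂ)) *
      (A (dt y θ) * g θ) = f y θ := ⟨_, fun _ _ => rfl⟩
  have hfm : Measurable fun p : (ℝ × ℝ) × ℝ => f p.1 p.2 := by
    have h1 := integrand_measz hAc ε t hg
    simp only [hf] at h1
    exact h1
  have harcb : ∀ i, ∫⁻ y in Zs Y1 δ, ‖∫ θ in arc (c i) h, f y θ‖ₑ ^ 4 ≤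
      ENNReal.ofReal (δ ^ 2) * (K * B ^ 2 * ∫⁻ θ in arc (c i) h, ‖g θ‖ₑ ^ 2) := by
    intro i
    have h1 := arc_bdz (c := c i) hY1 hδ hδ1 hrh hr1 hA ε t H hg hB
    simp only [hf] at h1
    exact h1
  simp only [hf]
  have hf0 : ∀ y θ, A (dt y θ) = 0 → f y θ = 0 := by
    intro y θ h1
    rw [← hf, h1, zero_mul, mul_zero]
  have hfb : ∀ y θ, ‖f y θ‖ ≤ B := by
    intro y θ
    rw [← hf]
    rw [norm_mul, norm_mul]
    have e1 : ‖cexp (I * ((t * phz ε (dt y θ) : ℝ) : ℂ))‖ = 1 := by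
      rw [mul_comm]
      exact Complex.norm_exp_ofReal_mul_I _
    have e2 : ‖g θ‖ ≤ B := by
      have := hB θ
      rw [← ofReal_norm, ← ENNReal.ofReal_coe_nnreal] at this
      exact (ENNReal.ofReal_le_ofReal_iff B.2).mp this
    rw [e1, one_mul]
    calc ‖A (dt y θ)‖ * ‖g θ‖ ≤ 1 * B := mul_le_mul (hAb _) e2 (norm_nonneg _) zero_le_one
      _ = B := one_mul _
  have hsplit : ∀ y, ∫ θ in Ioo (-π) π, f y θ =
      ∑ i ∈ Finset.range n, ∫ θ in arc (c i) h, f y θ := by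
    intro y
    have hint : ∀ p q : ℝ, IntervalIntegrable (f y) volume p q := by
      intro p q
      have h1 : Measurable (f y) := hfm.comp measurable_prodMk_left
      refine ⟨?_, ?_⟩
      · refine Measure.integrableOn_of_bounded (M := B) (by simp) h1.aestronglyMeasurable
          (Filter.Eventually.of_forall fun θ => hfb y θ)
      · refine Measure.integrableOn_of_bounded (M := B) (by simp) h1.aestronglyMeasurable
          (Filter.Eventually.of_forall fun θ => hfb y θ)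
    have h1 := intervalIntegral.sum_integral_adjacent_intervals (a := a) (n := n)
      (fun k _ => hint (a k) (a (k + 1)))
    rw [ha0, han, intervalIntegral.integral_of_le (by linarith [Real.pi_pos]),
      integral_Ioc_eq_integral_Ioo] at h1
    rw [← h1]
    refine Finset.sum_congr rfl fun i _ => ?_
    rw [harc, intervalIntegral.integral_of_le (hmono (Nat.le_succ i))]
  have hpt : ∀ y ∈ Zs Y1 δ, ‖∫ θ in Ioo (-π) π, f y θ‖ₑ ^ 4 ≤
      (N : ℝ≥0∞) ^ 3 * ∑ i ∈ Finset.range n, ‖∫ θ in arc (c i) h, f y θ‖ₑ ^ 4 := by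
    intro y hy
    rw [hsplit]
    apply sum4
    have h1 := count hY1 hY hδ hhp hn hy.1
      ((Finset.range n).filter fun i => (∫ θ in arc (c i) h, f y θ) ≠ 0) (by
      intro i hi
      rw [Finset.mem_filter, Finset.mem_range] at hi
      refine ⟨hi.1, ?_⟩
      by_contra hcon
      push Not at hcon
      apply hi.2
      rw [harc]
      apply setIntegral_eq_zero_of_forall_eq_zero
      intro θ hθ
      have h2 : A (dt y θ) = 0 := by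
        apply hA
        intro h3
        have h4 := hcon θ (by simpa only [ha, Nat.cast_add, Nat.cast_one] using hθ)
        rw [abs_of_pos (by linarith [h3.1])] at h4
        linarith [h3.2]
      exact hf0 y θ h2)
    have h5 : π * Y * δ / Y1 / (2 * h) = π * Y / Y1 / (2 * h0) := by
      rw [hh]; field_simp
    rw [h5] at h1
    exact h1
  have hFm : ∀ i, Measurable fun y => ‖∫ θ in arc (c i) h, f y θ‖ₑ ^ 4 := by
    intro i
    have h1 : StronglyMeasurable fun y => ∫ θ in arc (c i) h, f y θ :=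
      hfm.stronglyMeasurable.integral_prod_right (ν := volume.restrict (arc (c i) h))
    exact (h1.measurable.enorm).pow_const 4
  calc ∫⁻ y in Zs Y1 δ, ‖∫ θ in Ioo (-π) π, f y θ‖ₑ ^ 4
      ≤ ∫⁻ y in Zs Y1 δ, (N : ℝ≥0∞) ^ 3 *
          ∑ i ∈ Finset.range n, ‖∫ θ in arc (c i) h, f y θ‖ₑ ^ 4 :=
        setLIntegral_mono' (Zs_meas Y1 δ) hpt
    _ = (N : ℝ≥0∞) ^ 3 * ∑ i ∈ Finset.range n,
          ∫⁻ y in Zs Y1 δ, ‖∫ θ in arc (c i) h, f y θ‖ₑ ^ 4 := by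
        rw [lintegral_const_mul' _ _ (by finiteness), lintegral_finsetSum _ fun i _ => hFm i]
    _ ≤ (N : ℝ≥0∞) ^ 3 * ∑ i ∈ Finset.range n,
          ENNReal.ofReal (δ ^ 2) * (K * B ^ 2 * ∫⁻ θ in arc (c i) h, ‖g θ‖ₑ ^ 2) := by
        gcongr with i hi
        exact harcb i
    _ = _ := by
        rw [← Finset.mul_sum, ← Finset.mul_sum]
        have h1 := sum_arcs (fun θ => ‖g θ‖ₑ ^ 2) a hmono n
        rw [ha0, han, ← restrict_Ioo_eq_restrict_Ioc] at h1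
        simp only [harc]
        rw [h1]

lemma shl_eq (j : ℕ) : shl j = Zs (1 / 2) ((1 / 2) ^ j) := by
  have h2 : (((1 : ℝ) / 2) ^ j) ^ 2 = (4 ^ j)⁻¹ := by
    rw [← pow_mul, mul_comm, pow_mul, ← inv_pow]; norm_num
  have h4 : (0 : ℝ) < 4 ^ j := by positivity
  ext y
  have hq : AR.sq y = qq y := rfl
  unfold shl Zs
  rw [mem_ofPred_eq, mem_ofPred_eq, h2, hq]
  have e1 : (4 ^ j : ℝ) ≤ 4 * qq y ↔ ((1 : ℝ) / 2) ^ 2 ≤ (4 ^ j)⁻¹ * qq y := by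
    rw [← div_eq_inv_mul, le_div_iff₀ h4]
    constructor <;> intro h <;> linarith
  have e2 : 4 * qq y < (4 ^ (j + 1) : ℝ) ↔ (4 ^ j)⁻¹ * qq y < 4 * ((1 : ℝ) / 2) ^ 2 := by
    rw [← div_eq_inv_mul, div_lt_iff₀ h4, pow_succ]
    constructor <;> intro h <;> linarith
  rw [e1, e2]

theorem mainZ_of (h4 : CompL4z) : MainZ := by
  obtain ⟨r6, C6, hr60, hr61, H6⟩ := h4 ((1 / 2) / 2) (2 * 2 + 2 * (1 / 2)) (2 * (1 / 2))
    ((1 / 2) ^ 2 / (1 + (2 * 2 + 2 * (1 / 2)) ^ 2)) 8 (by norm_num) (by norm_num)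
  set r := min r6 (1 / 4) with hr
  have hr0 : 0 < r := lt_min hr60 (by norm_num)
  have hr1 : r ≤ 1 / 4 := min_le_right _ _
  have hpi := Real.pi_pos
  set n0 : ℕ := ⌈2 * π / r⌉₊ with hn0
  have hn0r : 2 * π / r ≤ n0 := Nat.le_ceil _
  have hn0p : 0 < (n0 : ℝ) := lt_of_lt_of_le (by positivity) hn0r
  set h0 : ℝ := π / n0 with hh0
  have hh0p : 0 < h0 := by positivity
  have hh0r : 2 * h0 ≤ r := by
    rw [hh0]
    rw [div_le_iff₀ hr0] at hn0r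
    have : 2 * (π / n0) = 2 * π / n0 := by ring
    rw [this, div_le_iff₀ hn0p]
    linarith
  set N : ℕ := 5 * (⌊2 * (π * 2 / (1 / 2) / (2 * h0) + 1)⌋₊ + 1) with hN
  refine ⟨N ^ 3 * C6, ?_⟩
  intro ε t hε hε8 ht A hAC hA g B hg hB j
  obtain ⟨A1, A2, hA2, hA1, hA1', hAb⟩ := hAC
  have hAc : Continuous A := continuous_iff_continuousAt.mpr fun y => (hA1 y).continuousAt
  have hδ0 : (0 : ℝ) < (1 / 2) ^ j := by positivity
  have hδ1 : ((1 : ℝ) / 2) ^ j ≤ 1 := pow_le_one₀ (by norm_num) (by norm_num)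
  have hn : ((2 ^ j * n0 : ℕ) : ℝ) * ((1 / 2) ^ j * h0) = π := by
    push_cast
    rw [hh0, div_pow, one_pow]
    field_simp
  have h1 := shell_bdz (Y := 2) (Y1 := 1 / 2) (by norm_num) (by norm_num) hδ0 hδ1 hh0p hh0r hr1 hn hAc
    (fun y => (hAb y).1) hA ε t
    (K := C6 * ENNReal.ofReal ((1 + Real.log t) ^ 2 / (t ^ 2 * (ε ^ 2 + ((1 / 2) ^ j) ^ 2))))
    (fun G B' hG hG0 hGB =>
      H6 _ ε t hδ0 hδ1 hε hε8 ht A ⟨A1, A2, hA2, hA1, hA1', hAb⟩ G B' hG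
        (fun x hx => hG0 x (lt_of_le_of_lt (min_le_left _ _) hx)) hGB) hg hB
  rw [← shl_eq] at h1
  refine h1.trans (le_of_eq ?_)
  have h2 : (((1 : ℝ) / 2) ^ j) ^ 2 = (4 ^ j)⁻¹ := by
    rw [← pow_mul, mul_comm, pow_mul, ← inv_pow]; norm_num
  have h3 : ENNReal.ofReal ((((1 : ℝ) / 2) ^ j) ^ 2) *
      ENNReal.ofReal ((1 + Real.log t) ^ 2 / (t ^ 2 * (ε ^ 2 + ((1 / 2) ^ j) ^ 2))) =
      ENNReal.ofReal ((1 + Real.log t) ^ 2 / (t ^ 2 * (1 + 4 ^ j * ε ^ 2))) := by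
    rw [← ENNReal.ofReal_mul (by positivity)]
    congr 1
    rw [h2]
    have h5 : (0 : ℝ) < 4 ^ j := by positivity
    have h6 : 0 < ε ^ 2 + ((4 : ℝ) ^ j)⁻¹ := by positivity
    have h7 : 0 < 1 + 4 ^ j * ε ^ 2 := by positivity
    have h8 : t ≠ 0 := by linarith
    field_simp
    ring
  have h9 : ((N ^ 3 * C6 : ℝ≥0) : ℝ≥0∞) = (N : ℝ≥0∞) ^ 3 * C6 := by push_cast; rfl
  rw [← h3, h9]
  ring

end Pool.Agent.TH986.MZ5
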